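import Pool.Agent.Q138.CovRad

set_option autoImplicit false

/-!
# Linear versus general codes for the `t`-th covering radius

`F` is a finite field with `q = Fintype.card F` elements. The quantities `tweight`, `power`,
`covRadius`, `kt`, `ktLin`, `kappa`, `kappaLin` are those of the problem.
-/

namespace Pool.Agent.Results.MP_5b687f_co.LinearEqualsGeneral

open Q138.CovRad

/-- The answer to Q1 is yes: `κ_t(ρ, q) = κ_t^Lin(ρ, q)` for all `t ≥ 1`, all prime powers `q`
and all `ρ ∈ [0, 1]`. Moreover, for fixed `t` and `q`, linear codes lose at most `O(log n)` for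
every length `n` and every radius `r`. -/
theorem result :
    (∀ (F : Type) [Field F] [Fintype F] (t : ℕ), 1 ≤ t → ∀ ρ : ℝ, 0 ≤ ρ → ρ ≤ 1 →
      kappa F t ρ = kappaLin F t ρ) ∧
    (∀ (F : Type) [Field F] [Fintype F] (t : ℕ), 1 ≤ t → ∃ A : ℝ, ∀ n : ℕ, 1 ≤ n →
      ∀ r : ℝ, 0 ≤ r → r ≤ n →
        kt F t n r ≤ ktLin F t n r ∧ ktLin F t n r ≤ kt F t n r + A * Real.log (n + 1)) := by
  refine ⟨fun F _ _ t ht ρ h0 _ => kappa_eq F t ht ρ h0, fun F _ _ t ht => ?_⟩
  obtain ⟨A, -, hA⟩ := ktLin_le F t ht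
  exact ⟨A, fun n hn r hr _ => ⟨kt_le_ktLin t n hr, hA n hn r hr⟩⟩

end Pool.Agent.Results.MP_5b687f_co.LinearEqualsGeneral
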